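import Mathlib
import Pool.Agent.Results.MP_fd999f_co.NoCapture

/-!
Product sets capturing shifted product sets: the optimal power saving.

There is one infinite set `X` of positive integers such that for every finite nonempty `A ⊆ X`,
with `n = |AA|`, and all `δ > 0`, `K ≥ 1`, any sets `E`, `F` with `|E|, |F| ≥ n^δ` and `|EF| ≤ K n`
capture at most `6 K n^(1 - min(δ, 1/2))` elements of `AA + 1`.  For `δ ≤ 1/2` the exponent `1 - δ`
is optimal for every nonempty finite set `A`.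
-/

set_option autoImplicit false

open scoped Pointwise
open Filter

namespace Pool.Agent.Results.MP_fd999f_co.OptimalSaving

open Pool.Agent.Results.MP_fd999f_co.NoCapture

/-- `|X| ≥ t` for a possibly infinite set `X` of natural numbers. -/
def AtLeast (X : Set ℕ) (t : ℝ) : Prop := X.Infinite ∨ t ≤ X.ncard

/-- `|X| ≤ t` (in particular `X` is finite). -/
def AtMost (X : Set ℕ) (t : ℝ) : Prop := X.Finite ∧ (X.ncard : ℝ) ≤ t

/-- `|(AA + 1) ∩ EF|`, the number of captured elements. -/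
noncomputable def captured (A : Finset ℕ) (E F : Set ℕ) : ℕ :=
  ((((A * A).image (· + 1) : Finset ℕ) : Set ℕ) ∩ (E * F)).ncard

lemma cop_subset {A B : Finset ℕ} (h : A ⊆ B) (hB : Cop B) : Cop A :=
  fun a ha b hb c hc d hd hne => hB a (h ha) b (h hb) c (h hc) d (h hd) hne

/-- An infinite set all of whose finite subsets have pairwise coprime `ab + 1`. -/
lemma exists_infinite : ∃ X : Set ℕ, X.Infinite ∧ (∀ x ∈ X, 0 < x) ∧
    ∀ A : Finset ℕ, (A : Set ℕ) ⊆ X → Cop A := by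
  classical
  have hnew : ∀ A : {A : Finset ℕ // Cop A ∧ ∀ a ∈ A, 0 < a},
      ∃ B : {A : Finset ℕ // Cop A ∧ ∀ a ∈ A, 0 < a}, A.1 ⊂ B.1 := by
    rintro ⟨A, hA, hpos⟩
    obtain ⟨x, hx, hx0, hcop⟩ := exists_extend A hA
    refine ⟨⟨insert x A, hcop, ?_⟩, Finset.ssubset_insert hx⟩
    intro a ha
    rcases Finset.mem_insert.1 ha with rfl | ha
    · exact hx0
    · exact hpos a ha
  choose nx hnx using hnew
  let s : ℕ → {A : Finset ℕ // Cop A ∧ ∀ a ∈ A, 0 < a} := fun k =>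
    Nat.rec ⟨∅, by intro a ha; simp at ha, by simp⟩ (fun _ A => nx A) k
  have hs : ∀ k, (s k).1 ⊂ (s (k + 1)).1 := fun k => hnx (s k)
  have hmono : StrictMono fun k => (s k).1 := strictMono_nat_of_lt_succ hs
  refine ⟨⋃ k, ((s k).1 : Set ℕ), ?_, ?_, ?_⟩
  · intro hfin
    have hb : ∀ k, k ≤ (s k).1.card := by
      intro k
      induction k with
      | zero => exact Nat.zero_le _
      | succ k ih =>
        have := Finset.card_lt_card (hs k)
        omega
    have h1 := hb (hfin.toFinset.card + 1)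
    have h2 : (s (hfin.toFinset.card + 1)).1 ⊆ hfin.toFinset := by
      intro x hx
      rw [Set.Finite.mem_toFinset]
      exact Set.mem_iUnion.2 ⟨hfin.toFinset.card + 1, hx⟩
    have h3 := Finset.card_le_card h2
    omega
  · intro x hx
    obtain ⟨k, hk⟩ := Set.mem_iUnion.1 hx
    exact (s k).2.2 x hk
  · intro A hA
    have hdir : ∃ k, A ⊆ (s k).1 := by
      induction A using Finset.induction_on with
      | empty => exact ⟨0, Finset.empty_subset _⟩
      | insert a A ha ih =>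
        obtain ⟨k, hk⟩ := ih (fun x hx => hA (Finset.mem_insert_of_mem hx))
        obtain ⟨l, hl⟩ := Set.mem_iUnion.1 (hA (Finset.mem_insert_self a A))
        refine ⟨max k l, Finset.insert_subset ?_ ?_⟩
        · exact (hmono.monotone (le_max_right k l)) hl
        · exact hk.trans (hmono.monotone (le_max_left k l))
    obtain ⟨k, hk⟩ := hdir
    exact cop_subset hk (s k).2.1

/-- The upper bound for finite sets `E`, `F`. -/
lemma upper_finset (A : Finset ℕ) (hcop : Cop A) (hpos : ∀ a ∈ A, 0 < a)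
    (δ K : ℝ) (hδ : 0 < δ) (hK : 1 ≤ K) (hn : 1 ≤ (A * A).card) (E F : Finset ℕ)
    (hE : ((A * A).card : ℝ) ^ δ ≤ E.card) (hF : ((A * A).card : ℝ) ^ δ ≤ F.card)
    (hEF : ((E * F).card : ℝ) ≤ K * (A * A).card) :
    (((A * A).image (· + 1) ∩ (E * F)).card : ℝ) ≤
      6 * K * ((A * A).card : ℝ) ^ (1 - min δ (1 / 2)) := by
  set n : ℝ := ((A * A).card : ℝ) with hndef
  set η : ℝ := min δ (1 / 2) with hη
  have hη0 : 0 < η := lt_min hδ (by norm_num)
  have hη2 : η ≤ 1 / 2 := min_le_right _ _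
  have hn1 : (1 : ℝ) ≤ n := by
    rw [hndef]
    exact_mod_cast hn
  have hn0 : (0 : ℝ) < n := by linarith
  have hηδ : n ^ η ≤ n ^ δ := Real.rpow_le_rpow_of_exponent_le hn1 (min_le_left _ _)
  have hsplit : n ^ η * n ^ (1 - η) = n := by
    rw [← Real.rpow_add hn0]
    have : η + (1 - η) = 1 := by ring
    rw [this, Real.rpow_one]
  have hP0 : 0 < n ^ η := Real.rpow_pos_of_pos hn0 _
  have hQ0 : 0 < n ^ (1 - η) := Real.rpow_pos_of_pos hn0 _
  have hPQ : n ^ η ≤ n ^ (1 - η) := Real.rpow_le_rpow_of_exponent_le hn1 (by linarith)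
  have hcapn : (((A * A).image (· + 1) ∩ (E * F)).card : ℝ) ≤ n := by
    have h1 : ((A * A).image (· + 1) ∩ (E * F)).card ≤ (A * A).card :=
      (Finset.card_le_card Finset.inter_subset_left).trans Finset.card_image_le
    rw [hndef]
    exact_mod_cast h1
  by_cases hsmall : n ^ η < 2
  · -- small `n`
    have h1 : n ≤ 2 * n ^ (1 - η) := by
      calc n = n ^ η * n ^ (1 - η) := hsplit.symm
        _ ≤ 2 * n ^ (1 - η) := mul_le_mul_of_nonneg_right hsmall.le hQ0.le
    have h2 : 2 * n ^ (1 - η) ≤ 6 * K * n ^ (1 - η) :=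
      mul_le_mul_of_nonneg_right (by linarith) hQ0.le
    linarith
  · push Not at hsmall
    -- the number of rows
    obtain ⟨m, hm1, hm2⟩ : ∃ m : ℕ, (m : ℝ) < n ^ η ∧ n ^ η ≤ (m : ℝ) + 1 := by
      refine ⟨⌈n ^ η⌉₊ - 1, ?_, ?_⟩
      · have h1 : 1 ≤ ⌈n ^ η⌉₊ := Nat.one_le_ceil_iff.2 hP0
        have h2 := Nat.ceil_lt_add_one hP0.le
        push_cast [Nat.cast_sub h1]
        linarith
      · have h1 : 1 ≤ ⌈n ^ η⌉₊ := Nat.one_le_ceil_iff.2 hP0
        have h2 := Nat.le_ceil (n ^ η)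
        push_cast [Nat.cast_sub h1]
        linarith
    have hmE : m + 1 ≤ E.card := by
      have h1 : (m : ℝ) < E.card := lt_of_lt_of_le hm1 (hηδ.trans hE)
      exact_mod_cast h1
    have hmF : m + 1 ≤ F.card := by
      have h1 : (m : ℝ) < F.card := lt_of_lt_of_le hm1 (hηδ.trans hF)
      exact_mod_cast h1
    have hS1 : ∀ s ∈ (A * A).image (· + 1), 1 < s := by
      intro s hs
      obtain ⟨t, ht, rfl⟩ := Finset.mem_image.1 hs
      obtain ⟨a, ha, b, hb, rfl⟩ := Finset.mem_mul.1 ht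
      have := Nat.mul_pos (hpos a ha) (hpos b hb)
      omega
    have hScop : ∀ s ∈ (A * A).image (· + 1), ∀ t ∈ (A * A).image (· + 1), s ≠ t →
        Nat.Coprime s t := by
      intro s hs t ht hst
      obtain ⟨s', hs', rfl⟩ := Finset.mem_image.1 hs
      obtain ⟨t', ht', rfl⟩ := Finset.mem_image.1 ht
      obtain ⟨a, ha, b, hb, rfl⟩ := Finset.mem_mul.1 hs'
      obtain ⟨c, hc, d, hd, rfl⟩ := Finset.mem_mul.1 ht'
      refine hcop a ha b hb c hc d hd ?_
      intro h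
      apply hst
      rw [Sym2.eq_iff] at h
      rcases h with ⟨rfl, rfl⟩ | ⟨rfl, rfl⟩
      · rfl
      · rw [mul_comm]
    have hmain := two_side _ E F m hS1 hScop hmE hmF
    have hmainR : (m : ℝ) * (((A * A).image (· + 1) ∩ (E * F)).card : ℝ) ≤
        2 * (((E * F).card : ℝ) + (m : ℝ) ^ 2) := by exact_mod_cast hmain
    have hmhalf : n ^ η / 2 ≤ m := by linarith
    have hm0 : (0 : ℝ) < m := by linarith
    -- `m * cap ≤ 2 K n + 2 m²`
    set cap : ℝ := (((A * A).image (· + 1) ∩ (E * F)).card : ℝ) with hcap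
    have h1 : (m : ℝ) * cap ≤ 2 * (K * n) + 2 * (m : ℝ) ^ 2 := by linarith
    have h2 : cap ≤ 2 * (K * n) / m + 2 * m := by
      rw [div_add' _ _ _ hm0.ne', le_div_iff₀ hm0]
      nlinarith
    have h3 : 2 * (K * n) / m ≤ 4 * K * n ^ (1 - η) := by
      rw [div_le_iff₀ hm0]
      have h4 : K * n = K * (n ^ η * n ^ (1 - η)) := by rw [hsplit]
      rw [h4]
      have h5 : n ^ η * (2 * K * n ^ (1 - η)) ≤ (2 * m) * (2 * K * n ^ (1 - η)) :=
        mul_le_mul_of_nonneg_right (by linarith) (by positivity)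
      nlinarith
    have h4 : 2 * (m : ℝ) ≤ 2 * K * n ^ (1 - η) := by
      have : (m : ℝ) ≤ n ^ (1 - η) := hm1.le.trans hPQ
      nlinarith
    nlinarith

/-- The upper bound for arbitrary sets `E`, `F`. -/
lemma upper_set (A : Finset ℕ) (hcop : Cop A) (hpos : ∀ a ∈ A, 0 < a) (hne : A.Nonempty)
    (δ K : ℝ) (hδ : 0 < δ) (hK : 1 ≤ K) (E F : Set ℕ)
    (hE : AtLeast E (((A * A).card : ℝ) ^ δ)) (hF : AtLeast F (((A * A).card : ℝ) ^ δ))
    (hEF : AtMost (E * F) (K * (A * A).card)) :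
    (captured A E F : ℝ) ≤ 6 * K * ((A * A).card : ℝ) ^ (1 - min δ (1 / 2)) := by
  classical
  have hn : 0 < (A * A).card := Finset.card_pos.2 (hne.mul hne)
  obtain ⟨hfin, hEF⟩ := hEF
  by_cases hz : captured A E F = 0
  · rw [hz]
    push_cast
    positivity
  have hcap0 : 0 < captured A E F := Nat.pos_of_ne_zero hz
  obtain ⟨v, hv⟩ := Set.nonempty_of_ncard_ne_zero hcap0.ne'
  obtain ⟨hv1, e, he, f, hf, hef⟩ := hv
  have hv0 : e * f ≠ 0 := by
    obtain ⟨w, -, hw⟩ := Finset.mem_image.1 (Finset.mem_coe.1 hv1)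
    have h : e * f = v := hef
    omega
  have he0 : e ≠ 0 := left_ne_zero_of_mul hv0
  have hf0 : f ≠ 0 := right_ne_zero_of_mul hv0
  have hEfin : E.Finite := by
    have h1 : ((· * f) '' E).Finite :=
      hfin.subset (by rintro _ ⟨x, hx, rfl⟩; exact Set.mul_mem_mul hx hf)
    exact h1.of_finite_image (fun a _ b _ h =>
      Nat.eq_of_mul_eq_mul_right (Nat.pos_of_ne_zero hf0) h)
  have hFfin : F.Finite := by
    have h1 : ((e * ·) '' F).Finite :=
      hfin.subset (by rintro _ ⟨x, hx, rfl⟩; exact Set.mul_mem_mul he hx)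
    exact h1.of_finite_image (fun a _ b _ h =>
      Nat.eq_of_mul_eq_mul_left (Nat.pos_of_ne_zero he0) h)
  lift E to Finset ℕ using hEfin
  lift F to Finset ℕ using hFfin
  have e1 : ((E : Set ℕ) * (F : Set ℕ)) = ((E * F : Finset ℕ) : Set ℕ) := by
    rw [Finset.coe_mul]
  rw [e1, Set.ncard_coe_finset] at hEF
  have e2 : captured A E F = ((A * A).image (· + 1) ∩ (E * F)).card := by
    unfold captured
    rw [e1, ← Finset.coe_inter, Set.ncard_coe_finset]
  rw [e2]
  refine upper_finset A hcop hpos δ K hδ hK hn E F ?_ ?_ hEF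
  · rcases hE with h | h
    · exact absurd (Finset.finite_toSet E) h
    · rwa [Set.ncard_coe_finset] at h
  · rcases hF with h | h
    · exact absurd (Finset.finite_toSet F) h
    · rwa [Set.ncard_coe_finset] at h

/-- The exponent is optimal for every nonempty finite set `A`. -/
lemma lower (A : Finset ℕ) (hne : A.Nonempty) (δ : ℝ) (hδ : 0 < δ)
    (hδ2 : δ ≤ 1 / 2) :
    ∃ E F : Finset ℕ, ((A * A).card : ℝ) ^ δ ≤ E.card ∧ ((A * A).card : ℝ) ^ δ ≤ F.card ∧
      ((E * F).card : ℝ) ≤ 4 * (A * A).card ∧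
      ((A * A).card : ℝ) ^ (1 - δ) ≤ (((A * A).image (· + 1) ∩ (E * F)).card : ℝ) := by
  classical
  have hn : 0 < (A * A).card := Finset.card_pos.2 (hne.mul hne)
  set n : ℝ := ((A * A).card : ℝ) with hndef
  have hn1 : (1 : ℝ) ≤ n := by
    rw [hndef]
    exact_mod_cast hn
  have hn0 : (0 : ℝ) < n := by linarith
  have hsplit : n ^ δ * n ^ (1 - δ) = n := by
    rw [← Real.rpow_add hn0]
    have : δ + (1 - δ) = 1 := by ring
    rw [this, Real.rpow_one]
  have hP1 : 1 ≤ n ^ δ := Real.one_le_rpow hn1 hδ.le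
  have hQ1 : 1 ≤ n ^ (1 - δ) := Real.one_le_rpow hn1 (by linarith)
  have hPQ : n ^ δ ≤ n ^ (1 - δ) := Real.rpow_le_rpow_of_exponent_le hn1 (by linarith)
  have hQn : n ^ (1 - δ) ≤ n := by
    calc n ^ (1 - δ) ≤ n ^ (1 : ℝ) := Real.rpow_le_rpow_of_exponent_le hn1 (by linarith)
      _ = n := Real.rpow_one n
  -- `r` elements of `AA + 1`
  set r : ℕ := ⌈n ^ (1 - δ)⌉₊ with hr
  set k : ℕ := ⌈n ^ δ⌉₊ with hk
  have hcardS : ((A * A).image (· + 1)).card = (A * A).card :=
    Finset.card_image_of_injective _ (fun a b h => Nat.succ_injective h)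
  have hrn : r ≤ ((A * A).image (· + 1)).card := by
    rw [hcardS, hr]
    exact Nat.ceil_le.2 hQn
  obtain ⟨F, hFsub, hFcard⟩ := Finset.exists_subset_card_eq hrn
  refine ⟨Finset.Icc 1 k, F, ?_, ?_, ?_, ?_⟩
  · rw [Nat.card_Icc]
    simpa using Nat.le_ceil (n ^ δ)
  · rw [hFcard]
    exact hPQ.trans (Nat.le_ceil _)
  · have h1 : (Finset.Icc 1 k * F).card ≤ k * r := by
      refine Finset.card_mul_le.trans ?_
      rw [Nat.card_Icc, hFcard]
      simp
    have h2 : (k : ℝ) ≤ 2 * n ^ δ := by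
      have := Nat.ceil_lt_add_one (zero_le_one.trans hP1)
      rw [← hk] at this
      linarith
    have h3 : (r : ℝ) ≤ 2 * n ^ (1 - δ) := by
      have := Nat.ceil_lt_add_one (zero_le_one.trans hQ1)
      rw [← hr] at this
      linarith
    have h4 : ((Finset.Icc 1 k * F).card : ℝ) ≤ (k : ℝ) * r := by exact_mod_cast h1
    have h5 : (k : ℝ) * r ≤ (2 * n ^ δ) * (2 * n ^ (1 - δ)) :=
      mul_le_mul h2 h3 (Nat.cast_nonneg _) (by positivity)
    have h6 : (2 * n ^ δ) * (2 * n ^ (1 - δ)) = 4 * n := by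
      calc (2 * n ^ δ) * (2 * n ^ (1 - δ)) = 4 * (n ^ δ * n ^ (1 - δ)) := by ring
        _ = 4 * n := by rw [hsplit]
    linarith
  · have h1 : F ⊆ (A * A).image (· + 1) ∩ (Finset.Icc 1 k * F) := by
      intro x hx
      rw [Finset.mem_inter]
      refine ⟨hFsub hx, ?_⟩
      rw [Finset.mem_mul]
      refine ⟨1, ?_, x, hx, one_mul x⟩
      rw [Finset.mem_Icc]
      have : 1 ≤ k := by
        rw [hk]
        exact Nat.one_le_ceil_iff.2 (by linarith)
      exact ⟨le_refl 1, this⟩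
    have h2 := Finset.card_le_card h1
    rw [hFcard] at h2
    have h3 : (r : ℝ) ≤ (((A * A).image (· + 1) ∩ (Finset.Icc 1 k * F)).card : ℝ) := by
      exact_mod_cast h2
    exact (Nat.le_ceil _).trans h3

theorem result :
    -- one infinite set all of whose finite subsets are counterexamples with a power saving
    (∃ X : Set ℕ, X.Infinite ∧ (∀ x ∈ X, 0 < x) ∧
      ∀ A : Finset ℕ, (A : Set ℕ) ⊆ X → A.Nonempty → ∀ δ K : ℝ, 0 < δ → 1 ≤ K →
        ∀ E F : Set ℕ, AtLeast E (((A * A).card : ℝ) ^ δ) →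
          AtLeast F (((A * A).card : ℝ) ^ δ) → AtMost (E * F) (K * (A * A).card) →
          (captured A E F : ℝ) ≤ 6 * K * ((A * A).card : ℝ) ^ (1 - min δ (1 / 2))) ∧
    -- the exponent is optimal for `δ ≤ 1/2`
    (∀ A : Finset ℕ, A.Nonempty → ∀ δ : ℝ, 0 < δ → δ ≤ 1 / 2 →
      ∃ E F : Finset ℕ, ((A * A).card : ℝ) ^ δ ≤ E.card ∧ ((A * A).card : ℝ) ^ δ ≤ F.card ∧
        ((E * F).card : ℝ) ≤ 4 * (A * A).card ∧
        ((A * A).card : ℝ) ^ (1 - δ) ≤ captured A E F) ∧
    -- the negated form of the question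
    (∀ c₃ c₄ δ : ℝ, 0 < c₃ → 0 < c₄ → 0 < δ → ∀ N : ℕ,
      ∃ A : Finset ℕ, (∀ a ∈ A, 0 < a) ∧ N ≤ A.card ∧ N ≤ (A * A).card ∧
        ∀ E F : Set ℕ, ¬ (AtLeast E (((A * A).card : ℝ) ^ δ) ∧
          AtLeast F (((A * A).card : ℝ) ^ δ) ∧ AtMost (E * F) (c₃ * (A * A).card) ∧
          c₄ * (A * A).card ≤ captured A E F)) := by
  refine ⟨?_, ?_, ?_⟩
  · obtain ⟨X, hX, hpos, hcop⟩ := exists_infinite
    exact ⟨X, hX, hpos, fun A hA hne δ K hδ hK E F hE hF hEF =>
      upper_set A (hcop A hA) (fun a ha => hpos a (hA ha)) hne δ K hδ hK E F hE hF hEF⟩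
  · intro A hne δ hδ hδ2
    obtain ⟨E, F, h1, h2, h3, h4⟩ := lower A hne δ hδ hδ2
    refine ⟨E, F, h1, h2, h3, ?_⟩
    have e2 : captured A E F = ((A * A).image (· + 1) ∩ (E * F)).card := by
      unfold captured
      rw [← Finset.coe_mul, ← Finset.coe_inter, Set.ncard_coe_finset]
    rw [e2]
    exact h4
  · intro c₃ c₄ δ h3 h4 hδ N
    obtain ⟨A, h1, h2, h5, h6⟩ := NoCapture.result c₃ c₄ δ h3 h4 hδ N
    exact ⟨A, h1, h2, h5, fun E F h => h6 E F h⟩

end Pool.Agent.Results.MP_fd999f_co.OptimalSaving
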